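import Pool.Agent.P.MP_9682d1_al.Main

/-! Polynomials in ten square zero variables over the field with two elements, as bit sets. -/

set_option autoImplicit false
set_option linter.unusedSectionVars false

namespace Pool.Agent.P.MP_9682d1_al.Six

open Matrix

variable {E : Type} [CommRing E] [CharP E 2]

/-- the value of a bit set -/
def ev (u : ℕ → E) : ℕ → ℕ → E
  | 0, p => (p : E)
  | k + 1, p => ev u k (p % 2 ^ 2 ^ k) + u k * ev u k (p / 2 ^ 2 ^ k)

theorem ev_succ (u : ℕ → E) (k p : ℕ) :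
    ev u (k + 1) p = ev u k (p % 2 ^ 2 ^ k) + u k * ev u k (p / 2 ^ 2 ^ k) := rfl

theorem ev_zero (u : ℕ → E) (k : ℕ) : ev u k 0 = 0 := by
  induction k with
  | zero => simp [ev]
  | succ k ih => simp [ev, ih]

theorem one_lt_pp (k : ℕ) : 1 < 2 ^ 2 ^ k := Nat.one_lt_two_pow (by positivity)

theorem ev_one (u : ℕ → E) (k : ℕ) : ev u k 1 = 1 := by
  induction k with
  | zero => simp [ev]
  | succ k ih =>
    rw [ev, Nat.mod_eq_of_lt (one_lt_pp k), Nat.div_eq_of_lt (one_lt_pp k), ih, ev_zero]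
    simp

theorem ev_xor (u : ℕ → E) (k : ℕ) : ∀ p q, ev u k (p ^^^ q) = ev u k p + ev u k q := by
  induction k with
  | zero =>
    intro p q
    simp only [ev]
    rw [CharP.cast_eq_mod E 2, Nat.xor_mod_two_eq, ← CharP.cast_eq_mod E 2, Nat.cast_add]
  | succ k ih =>
    intro p q
    simp only [ev]
    rw [Nat.xor_mod_two_pow, Nat.xor_div_two_pow, ih, ih]
    ring

/-- the monomials that do not contain the variable `k` -/
def mask (k : ℕ) : ℕ → ℕ
  | 0 => 0
  | N + 1 => if k = N then 2 ^ 2 ^ N - 1 else mask k N + 2 ^ 2 ^ N * mask k N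

theorem mask_lt (k : ℕ) : ∀ N, mask k N * 2 ^ 2 ^ k < 2 ^ 2 ^ N
  | 0 => by simp [mask]
  | N + 1 => by
    have ih := mask_lt k N
    have h := one_lt_pp N
    rw [mask, pow_succ 2 N, pow_mul]
    split_ifs with hk
    · subst hk
      obtain ⟨h, eh⟩ : ∃ h, 2 ^ 2 ^ k = h + 1 := ⟨2 ^ 2 ^ k - 1, by omega⟩
      rw [eh, Nat.add_sub_cancel]
      nlinarith
    · generalize 2 ^ 2 ^ N = H at *
      generalize 2 ^ 2 ^ k = s at *
      have : (mask k N + H * mask k N) * s = (H + 1) * (mask k N * s) := by ring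
      rw [this]
      obtain ⟨t, ht⟩ : ∃ t, H = mask k N * s + 1 + t := ⟨H - (mask k N * s + 1), by omega⟩
      generalize mask k N * s = r at *
      subst ht
      nlinarith

theorem ev_mask (u : ℕ → E) (k : ℕ) (hu : u k * u k = 0) :
    ∀ N, k < N → ∀ q, ev u N ((q &&& mask k N) * 2 ^ 2 ^ k) = u k * ev u N q
  | 0 => fun h => absurd h (by omega)
  | N + 1 => fun h q => by
    have hp : 0 < 2 ^ 2 ^ N := by positivity
    rw [mask]
    split_ifs with hk
    · subst hk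
      rw [Nat.and_two_pow_sub_one_eq_mod, ev, ev, Nat.mul_mod_left, Nat.mul_div_cancel _ hp, ev_zero,
        mul_add, ← mul_assoc, hu]
      simp
    · have ih := ev_mask u k hu N (by omega)
      have hl := mask_lt k N
      have hm : mask k N < 2 ^ 2 ^ N :=
        lt_of_le_of_lt (Nat.le_mul_of_pos_right _ (by positivity)) hl
      have e0 : (q &&& (mask k N + 2 ^ 2 ^ N * mask k N)) % 2 ^ 2 ^ N =
          q % 2 ^ 2 ^ N &&& mask k N := by
        rw [Nat.and_mod_two_pow, Nat.add_mul_mod_self_left, Nat.mod_eq_of_lt hm]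
      have e1 : (q &&& (mask k N + 2 ^ 2 ^ N * mask k N)) / 2 ^ 2 ^ N =
          q / 2 ^ 2 ^ N &&& mask k N := by
        rw [Nat.and_div_two_pow, Nat.add_mul_div_left _ _ hp, Nat.div_eq_of_lt hm, zero_add]
      have e2 := Nat.mod_add_div (q &&& (mask k N + 2 ^ 2 ^ N * mask k N)) (2 ^ 2 ^ N)
      rw [e0, e1] at e2
      have hlo : (q % 2 ^ 2 ^ N &&& mask k N) * 2 ^ 2 ^ k < 2 ^ 2 ^ N :=
        lt_of_le_of_lt (Nat.mul_le_mul_right _ Nat.and_le_right) hl
      rw [← e2, add_mul, mul_assoc, ev, Nat.add_mul_mod_self_left, Nat.mod_eq_of_lt hlo,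
        Nat.add_mul_div_left _ _ hp, Nat.div_eq_of_lt hlo, zero_add, ih, ih, ev]
      ring

/-- multiplication by a variable -/
def mv (k q : ℕ) : ℕ := Nat.mul (Nat.land q (mask k 10)) (Nat.pow 2 (Nat.pow 2 k))

theorem ev_mv {u : ℕ → E} (hu : ∀ k, u k * u k = 0) {k : ℕ} (hk : k < 10) (q : ℕ) :
    ev u 10 (mv k q) = u k * ev u 10 q := ev_mask u k (hu k) 10 hk q

/-- multiplication, by recursion on the first factor -/
noncomputable def ml (q k : ℕ) : ℕ → ℕ :=
  Nat.rec (fun p => Nat.mul (Nat.mod p 2) q)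
    (fun k ih p => Nat.rec 0 (fun n _ =>
      Nat.xor (ih (Nat.mod (Nat.succ n) (Nat.pow 2 (Nat.pow 2 k))))
        (mv k (ih (Nat.div (Nat.succ n) (Nat.pow 2 (Nat.pow 2 k)))))) p) k

theorem ev_ml {u : ℕ → E} (hu : ∀ k, u k * u k = 0) (q : ℕ) :
    ∀ k, k ≤ 10 → ∀ p, ev u 10 (ml q k p) = ev u k p * ev u 10 q
  | 0 => fun _ p => by
    have e : ml q 0 p = p % 2 * q := (rfl)
    rw [e, ev, CharP.cast_eq_mod E 2]
    rcases Nat.mod_two_eq_zero_or_one p with h | h <;> rw [h] <;> simp [ev_zero]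
  | k + 1 => fun h p => by
    have ih := ev_ml hu q k (by omega)
    cases p with
    | zero =>
      have e : ml q (k + 1) 0 = 0 := (rfl)
      rw [e, ev_zero, ev_zero, zero_mul]
    | succ n =>
      have e : ml q (k + 1) (n + 1) =
          ml q k ((n + 1) % 2 ^ 2 ^ k) ^^^ mv k (ml q k ((n + 1) / 2 ^ 2 ^ k)) := (rfl)
      rw [e, ev_xor, ev_mv hu (by omega), ih, ih, ev_succ u k (n + 1)]
      ring

/-- the product -/
noncomputable def mu (p q : ℕ) : ℕ := ml q 10 p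

theorem ev_mu {u : ℕ → E} (hu : ∀ k, u k * u k = 0) (p q : ℕ) :
    ev u 10 (mu p q) = ev u 10 p * ev u 10 q := ev_ml hu q 10 le_rfl p

theorem ev_xor' (u : ℕ → E) (p q : ℕ) : ev u 10 (Nat.xor p q) = ev u 10 p + ev u 10 q :=
  ev_xor u 10 p q

/-- matrices of bit sets -/
structure Mx where
  a : ℕ
  b : ℕ
  c : ℕ
  d : ℕ
  e : ℕ
  f : ℕ
  g : ℕ
  h : ℕ
  i : ℕ

/-- the value of a matrix -/
def evM (u : ℕ → E) (A : Mx) : M3 E :=
  !![ev u 10 A.a, ev u 10 A.b, ev u 10 A.c; ev u 10 A.d, ev u 10 A.e, ev u 10 A.f;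
    ev u 10 A.g, ev u 10 A.h, ev u 10 A.i]

/-- a scalar product -/
noncomputable def d3 (a b c x y z : ℕ) : ℕ := Nat.xor (Nat.xor (mu a x) (mu b y)) (mu c z)

/-- the product, by recursion on the left factor -/
noncomputable def mm (A B : Mx) : Mx :=
  ⟨d3 A.a A.b A.c B.a B.d B.g, d3 A.a A.b A.c B.b B.e B.h, d3 A.a A.b A.c B.c B.f B.i,
   d3 A.d A.e A.f B.a B.d B.g, d3 A.d A.e A.f B.b B.e B.h, d3 A.d A.e A.f B.c B.f B.i,
   d3 A.g A.h A.i B.a B.d B.g, d3 A.g A.h A.i B.b B.e B.h, d3 A.g A.h A.i B.c B.f B.i⟩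

/-- the inverse of an orthogonal matrix -/
def iv (A : Mx) : Mx := ⟨A.e, A.b, A.h, A.d, A.a, A.g, A.f, A.c, A.i⟩

/-- the inverse of an orthogonal matrix -/
def ivM (A : M3 E) : M3 E := JJ * Aᵀ * JJ

theorem evM_mm {u : ℕ → E} (hu : ∀ k, u k * u k = 0) (A B : Mx) :
    evM u (mm A B) = evM u A * evM u B := by
  ext i j
  fin_cases i <;> fin_cases j <;>
    simp [evM, mm, d3, ev_xor, ev_mu hu, Matrix.mul_apply, Fin.sum_univ_three]

theorem ivM_eq (G : M3 E) :
    ivM G = !![G 1 1, G 0 1, G 2 1; G 1 0, G 0 0, G 2 0; G 1 2, G 0 2, G 2 2] := by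
  ext i j
  simp only [ivM, Matrix.mul_apply, Fin.sum_univ_three, Matrix.transpose_apply]
  fin_cases i <;> fin_cases j <;> simp [JJ]

theorem evM_iv (u : ℕ → E) (A : Mx) : evM u (iv A) = ivM (evM u A) := by
  rw [ivM_eq]; rfl

theorem JJ_mul : (JJ : M3 E) * JJ = 1 := by
  ext i j
  fin_cases i <;> fin_cases j <;> simp [JJ, Matrix.mul_apply, Fin.sum_univ_three]

theorem JJ_tr : (JJ : M3 E)ᵀ = JJ := by
  ext i j
  fin_cases i <;> fin_cases j <;> simp [JJ]

theorem ivM_mul (A B : M3 E) : ivM (A * B) = ivM B * ivM A := by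
  simp only [ivM, Matrix.transpose_mul, mul_assoc]
  rw [← mul_assoc JJ JJ, JJ_mul, one_mul]

theorem ivM_ivM (A : M3 E) : ivM (ivM A) = A := by
  simp only [ivM, Matrix.transpose_mul, JJ_tr, Matrix.transpose_transpose, mul_assoc, JJ_mul,
    mul_one]
  rw [← mul_assoc, JJ_mul, one_mul]

/-- evaluate a number, then continue -/
noncomputable def fz (x : ℕ) (k : ℕ → Bool) : Bool := Nat.rec (k 0) (fun n _ => k (Nat.succ n)) x

theorem fz_eq (x : ℕ) (k : ℕ → Bool) : fz x k = k x := by cases x <;> rfl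

/-- evaluate a matrix, then continue -/
noncomputable def fm (A : Mx) (k : Mx → Bool) : Bool :=
  fz A.a fun a => fz A.b fun b => fz A.c fun c => fz A.d fun d => fz A.e fun e =>
    fz A.f fun f => fz A.g fun g => fz A.h fun h => fz A.i fun i => k ⟨a, b, c, d, e, f, g, h, i⟩

theorem fm_eq (A : Mx) (k : Mx → Bool) : fm A k = k A := by simp only [fm, fz_eq]

/-- test for the unit matrix -/
def isI (A : Mx) : Bool :=
  Nat.beq A.a 1 && Nat.beq A.b 0 && Nat.beq A.c 0 && Nat.beq A.d 0 && Nat.beq A.e 1 &&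
    Nat.beq A.f 0 && Nat.beq A.g 0 && Nat.beq A.h 0 && Nat.beq A.i 1

theorem evM_isI (u : ℕ → E) {A : Mx} (h : isI A = true) : evM u A = 1 := by
  simp only [isI, Bool.and_eq_true, Nat.beq_eq] at h
  obtain ⟨⟨⟨⟨⟨⟨⟨⟨h1, h2⟩, h3⟩, h4⟩, h5⟩, h6⟩, h7⟩, h8⟩, h9⟩ := h
  ext i j
  fin_cases i <;> fin_cases j <;>
    simp [evM, h1, h2, h3, h4, h5, h6, h7, h8, h9, ev_zero, ev_one]

/-- the commutator of orthogonal matrices -/
def cmM (G W : M3 E) : M3 E := ivM W * (ivM G * W * G)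

/-- iterated commutators -/
noncomputable def loop (g : Mx) (n : ℕ) : Mx → Bool :=
  Nat.rec isI (fun _ ih c => fm (mm (iv g) c) fun y => fm (mm (iv g) (iv y)) fun z =>
    fm (mm (iv c) (iv z)) ih) n

theorem loop_sound {u : ℕ → E} (hu : ∀ k, u k * u k = 0) (g : Mx) :
    ∀ n c, loop g n c = true → (cmM (evM u g))^[n] (evM u c) = 1
  | 0 => fun _ h => evM_isI u h
  | n + 1 => fun c h => by
    have e : loop g (n + 1) c = fm (mm (iv g) c) fun y => fm (mm (iv g) (iv y)) fun z =>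
      fm (mm (iv c) (iv z)) (loop g n) := (rfl)
    rw [e, fm_eq, fm_eq, fm_eq] at h
    have h2 := loop_sound hu g n _ h
    rw [Function.iterate_succ_apply, ← h2]
    congr 1
    simp only [evM_mm hu, evM_iv, ivM_mul, ivM_ivM, cmM]

/-- the parametrised element -/
noncomputable def gB (a b c d m : ℕ) : Mx :=
  ⟨Nat.xor (Nat.xor (Nat.xor 1 c) (mu a b)) (mu (mu m d) (Nat.xor 1 c)), mu m (Nat.xor 1 c),
    Nat.xor a (mu (mu m b) (Nat.xor 1 c)), mu d (Nat.xor 1 c), Nat.xor 1 c, mu b (Nat.xor 1 c),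
    Nat.xor b (mu (mu a d) (Nat.xor 1 c)), mu a (Nat.xor 1 c),
    Nat.xor 1 (mu (mu a b) (Nat.xor 1 c))⟩

theorem evM_gB {u : ℕ → E} (hu : ∀ k, u k * u k = 0) (a b c d m : ℕ) :
    evM u (gB a b c d m) =
      gP (ev u 10 a) (ev u 10 b) (ev u 10 c) (ev u 10 d) (ev u 10 m) 1 := by
  simp only [evM, gB, gP, ev_xor', ev_mu hu, ev_one, one_mul]

/-- the first generic element -/
noncomputable def g1 (s : ℕ) : Mx := gB (mv 0 1) (mv 1 1) (mv 2 1) (mv 3 1) (Nat.xor (mv 4 1) s)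

/-- the second generic element -/
noncomputable def g2 (s : ℕ) : Mx := gB (mv 5 1) (mv 6 1) (mv 7 1) (mv 8 1) (Nat.xor (mv 9 1) s)

/-- the Engel test -/
noncomputable def tE (s t : ℕ) : Bool := fm (g1 s) fun g => fm (g2 t) (loop g 6)

/-- the exponent test -/
noncomputable def tP (s : ℕ) : Bool :=
  fm (g1 s) fun g => fm (mm g g) fun g => fm (mm g g) fun g => fm (mm g g) isI

theorem tE00 : tE 0 0 = true := by decide +kernel
theorem tE01 : tE 0 1 = true := by decide +kernel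
theorem tE10 : tE 1 0 = true := by decide +kernel
theorem tE11 : tE 1 1 = true := by decide +kernel
theorem tP0 : tP 0 = true := by decide +kernel
theorem tP1 : tP 1 = true := by decide +kernel

end Pool.Agent.P.MP_9682d1_al.Six
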