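import Pool.Agent.P.MP_9682d1_al.Six.Bits

/-! The matrix group is a locally finite 6-Engel group of exponent 8. -/

set_option autoImplicit false
set_option linter.unusedSectionVars false

namespace Pool.Agent.P.MP_9682d1_al.Six

open Matrix

variable {E : Type} [CommRing E] [CharP E 2]

/-- the matrix of a group element -/
def val (g : GG E) : M3 E := ((g : (M3 E)ˣ) : M3 E)

theorem val_inj {g h : GG E} (e : val g = val h) : g = h := Subtype.ext (Units.ext e)

theorem val_mul (g h : GG E) : val (g * h) = val g * val h := rfl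

theorem val_one : val (1 : GG E) = 1 := rfl

theorem val_inv (g : GG E) : val g⁻¹ = ivM (val g) := by
  have h1 : ivM (val g) * val g = 1 := by
    have h := g.2.1
    rw [ivM, mul_assoc, mul_assoc, ← mul_assoc (val g)ᵀ, val, h, JJ_mul]
  calc val g⁻¹ = ivM (val g) * val g * val g⁻¹ := by rw [h1, one_mul]
    _ = ivM (val g) := by rw [mul_assoc, ← val_mul, mul_inv_cancel, val_one, mul_one]

theorem val_iter (g : GG E) (n : ℕ) : ∀ w : GG E,
    val ((fun c : GG E => c⁻¹ * (g⁻¹ * c * g))^[n] w) = (cmM (val g))^[n] (val w) := by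
  induction n with
  | zero => intro w; rfl
  | succ n ih =>
    intro w
    rw [Function.iterate_succ_apply, Function.iterate_succ_apply, ih]
    simp only [val_mul, val_inv, cmM]

theorem ivM_smul (l : E) (G : M3 E) : ivM (l • G) = l • ivM G := by
  simp [ivM]

theorem cmM_left {l : E} (hl : l * l = 1) (G : M3 E) : cmM (l • G) = cmM G := by
  funext W
  simp only [cmM, ivM_smul, smul_mul_assoc, mul_smul_comm, smul_smul, hl, one_smul]

theorem cmM_right {l : E} (hl : l * l = 1) (G W : M3 E) : cmM G (l • W) = cmM G W := by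
  simp only [cmM, ivM_smul, smul_mul_assoc, mul_smul_comm, smul_smul, hl, one_smul]

theorem entry_sq (g : GG E) (i j : Fin 3) : val g i j ^ 2 = 0 ∨ val g i j ^ 2 = 1 := by
  rw [← Fr_apply]
  rcases g.2.2 with h | h <;> rw [val, h] <;> fin_cases i <;> fin_cases j <;> simp [w0]

theorem exists_param' (g : GG E) : ∃ (a b c d m l : E) (s : ℕ), a * a = 0 ∧ b * b = 0 ∧
    c * c = 0 ∧ d * d = 0 ∧ m * m = 0 ∧ l * l = 1 ∧ (s = 0 ∨ s = 1) ∧
      val g = l • gP a b c d (m + s) 1 := by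
  obtain ⟨a, b, c, d, m, l, ha, hb, hc, hd, hg⟩ := exists_param g
  have h11 : val g 1 1 ^ 2 = 1 := by
    rw [← Fr_apply]
    rcases g.2.2 with h | h <;> rw [val, h] <;> simp [w0]
  have h01 := entry_sq g 0 1
  rw [val, hg] at h11 h01
  simp [gP] at h11 h01
  have hl : l * l = 1 := by grind
  have hs : gP a b c d m l = l • gP a b c d m 1 := by
    ext i j
    fin_cases i <;> fin_cases j <;> simp [gP]
  rw [sq] at ha hb hc hd
  rcases h01 with h | h
  · exact ⟨a, b, c, d, m, l, 0, ha, hb, hc, hd, by grind, hl, Or.inl rfl, by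
      rw [val, hg, hs]; simp⟩
  · refine ⟨a, b, c, d, m + 1, l, 1, ha, hb, hc, hd, by grind, hl, Or.inr rfl, ?_⟩
    rw [val, hg, hs, Nat.cast_one, add_assoc, CharTwo.add_self_eq_zero, add_zero]

theorem ev_bit (u : ℕ → E) {s : ℕ} (hs : s = 0 ∨ s = 1) : ev u 10 s = s := by
  rcases hs with rfl | rfl <;> simp [ev_zero, ev_one]

theorem evM_g1 {u : ℕ → E} (hu : ∀ k, u k * u k = 0) {s : ℕ} (hs : s = 0 ∨ s = 1) :
    evM u (g1 s) = gP (u 0) (u 1) (u 2) (u 3) (u 4 + s) 1 := by
  rw [g1, evM_gB hu, ev_xor', ev_bit u hs]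
  iterate 5 rw [ev_mv hu (by norm_num)]
  simp only [ev_one, mul_one]

theorem evM_g2 {u : ℕ → E} (hu : ∀ k, u k * u k = 0) {s : ℕ} (hs : s = 0 ∨ s = 1) :
    evM u (g2 s) = gP (u 5) (u 6) (u 7) (u 8) (u 9 + s) 1 := by
  rw [g2, evM_gB hu, ev_xor', ev_bit u hs]
  iterate 5 rw [ev_mv hu (by norm_num)]
  simp only [ev_one, mul_one]

theorem six_engel (x y : GG E) : (fun c : GG E => c⁻¹ * (y⁻¹ * c * y))^[6] x = 1 := by
  obtain ⟨a, b, c, d, m, l, s, ha, hb, hc, hd, hm, hl, hs, hy⟩ := exists_param' y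
  obtain ⟨A, B, C, D, M, L, t, hA, hB, hC, hD, hM, hL, ht, hx⟩ := exists_param' x
  obtain ⟨u, eu⟩ : ∃ u : ℕ → E, u = fun i => [a, b, c, d, m, A, B, C, D, M].getD i 0 := ⟨_, rfl⟩
  have hu : ∀ k, u k * u k = 0 := by
    intro k
    rcases k with _ | _ | _ | _ | _ | _ | _ | _ | _ | _ | k <;> simp [*]
  have hT : tE s t = true := by
    rcases hs with rfl | rfl <;> rcases ht with rfl | rfl
    exacts [tE00, tE01, tE10, tE11]
  rw [tE, fm_eq, fm_eq] at hT
  have h := loop_sound hu _ _ _ hT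
  rw [evM_g1 hu hs, evM_g2 hu ht, eu] at h
  apply val_inj
  rw [val_iter, hx, hy, cmM_left hl, Function.iterate_succ_apply, cmM_right hL,
    ← Function.iterate_succ_apply]
  exact h

theorem pow_eight (y : GG E) : y ^ 8 = 1 := by
  obtain ⟨a, b, c, d, m, l, s, ha, hb, hc, hd, hm, hl, hs, hy⟩ := exists_param' y
  obtain ⟨u, eu⟩ : ∃ u : ℕ → E, u = fun i => [a, b, c, d, m].getD i 0 := ⟨_, rfl⟩
  have hu : ∀ k, u k * u k = 0 := by
    intro k
    rcases k with _ | _ | _ | _ | _ | k <;> simp [*]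
  have hT : tP s = true := by
    rcases hs with rfl | rfl
    exacts [tP0, tP1]
  rw [tP, fm_eq, fm_eq, fm_eq, fm_eq] at hT
  have h := evM_isI u hT
  simp only [evM_mm hu] at h
  rw [evM_g1 hu hs, eu] at h
  apply val_inj
  have e : y ^ 8 = y * y * (y * y) * (y * y * (y * y)) := by
    simp only [pow_succ, pow_zero, one_mul, mul_assoc]
  rw [e]
  simp only [val_mul, hy, smul_mul_smul_comm, hl, one_smul]
  exact h

theorem xx_sq : (xx : GG E) ^ 2 = 1 := by
  apply val_inj
  rw [sq, val_mul]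
  exact w0_mul_w0

theorem loc_finite (S : Set (GG E)) (hS : S.Finite) :
    (Subgroup.closure S : Set (GG E)).Finite := by
  let _ : Algebra (ZMod 2) E := ZMod.algebra E 2
  obtain ⟨T, eT⟩ : ∃ T : Set E, T = (fun p : GG E × Fin 3 × Fin 3 => val p.1 p.2.1 p.2.2) ''
    (S ×ˢ Set.univ) := ⟨_, rfl⟩
  have hT : T.Finite := eT ▸ (hS.prod Set.finite_univ).image _
  have hI : ∀ x ∈ T, IsIntegral (ZMod 2) x := by
    rw [eT]
    rintro _ ⟨⟨g, i, j⟩, -, rfl⟩
    refine IsIntegral.of_pow two_pos ?_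
    rcases entry_sq g i j with h | h <;> rw [h]
    exacts [isIntegral_zero, isIntegral_one]
  have hF := Algebra.finite_adjoin_of_finite_of_isIntegral hT hI
  have hA : Finite (Algebra.adjoin (ZMod 2) T) := Module.finite_of_finite (ZMod 2)
  obtain ⟨A, eA⟩ : ∃ A, A = Algebra.adjoin (ZMod 2) T := ⟨_, rfl⟩
  rw [← eA] at hA
  let K : Subgroup (GG E) :=
    { carrier := {g | ∀ i j, val g i j ∈ A}
      mul_mem' := fun {g h} hg hh i j => by
        rw [val_mul, Matrix.mul_apply]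
        exact A.sum_mem fun k _ => A.mul_mem (hg i k) (hh k j)
      one_mem' := fun i j => by
        rw [val_one, Matrix.one_apply]
        split_ifs
        exacts [A.one_mem, A.zero_mem]
      inv_mem' := fun {g} hg i j => by
        rw [val_inv, ivM_eq]
        fin_cases i <;> fin_cases j <;> exact hg _ _ }
  have hK : Subgroup.closure S ≤ K := by
    rw [Subgroup.closure_le]
    intro g hg i j
    rw [eA]
    exact Algebra.subset_adjoin (eT ▸ ⟨(g, i, j), ⟨hg, trivial⟩, rfl⟩)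
  refine Set.Finite.subset ?_ hK
  refine Set.Finite.of_finite_image (f := val) ?_ fun g _ h _ e => val_inj e
  refine Set.Finite.subset (Set.Finite.pi' fun _ : Fin 3 => Set.Finite.pi' fun _ : Fin 3 =>
    (Set.toFinite (A : Set E))) ?_
  rintro _ ⟨g, hg, rfl⟩
  exact hg

theorem main : ∃ (G : Type) (_ : Group G),
    (∀ S : Set G, S.Finite → (Subgroup.closure S : Set G).Finite) ∧ (∀ g : G, g ^ 8 = 1) ∧
    (∀ x y : G, (fun c : G => c⁻¹ * (y⁻¹ * c * y))^[6] x = 1) ∧
    ∃ a : G, a ^ 2 = 1 ∧ (∀ x : G, (fun c : G => c⁻¹ * (x⁻¹ * c * x))^[5] a = 1) ∧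
      a ∉ sSup {H : Subgroup G | IsCyclic H ∧ H.IsSubnormal} := by
  obtain ⟨E, _, _, hE⟩ := exists_big_ring
  exact ⟨GG E, inferInstance, loc_finite, pow_eight, six_engel, xx, xx_sq, xx_engel,
    xx_not_mem hE⟩

end Pool.Agent.P.MP_9682d1_al.Six
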